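import Mathlib
import Pool.Agent.Y210.EF.Spread
import Pool.Agent.Y210.EF.Expo
import Pool.Agent.TH760.EN.Asm
import Pool.Agent.TH864.SX.Final13
import Pool.Agent.TH864.SX.Eleven
import Pool.Agent.TH469.SX.TwentyOne
import Pool.Agent.TH469.SX.Fifteen
import Pool.Agent.H932R3.NearFinal
import Pool.Agent.TH641.NW.End2

set_option autoImplicit false

/-!
# The uniform Harbourne-Hirschowitz conjecture: explicit open sets, explicit points, all fields

Let `n ≥ 10` and `m ≥ 1`. There is a set `A` of degrees with at most one element, and empty if `n ≥ 37`,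
`n = 13`, `n = 21` or `n` is a square (see `Open` for the restrictions on the element of `A` for the
other `n`), such that the following holds, with `c = n m (m + 1) / 2`.

1. There is a polynomial `Φ ≠ 0` with INTEGRAL coefficients in the `2 n` affine coordinates of `n`
   points, of total degree at most `2 c √(2 c)` and with sum of the absolute values of the coefficients
   at most `(c!) ^ 2 * 4 ^ (c √(2 c))`, such that for EVERY field `L`, of any characteristic, every `n`
   points `Y` over `L` with `Φ(Y) ≠ 0` and every `d ∉ A` the space of the curves of degree `d` with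
   multiplicity at least `m` at the `n` points has the expected dimension.
2. `Φ ≠ 0` over every field `L` of characteristic zero or `p > (c!) ^ 2 * 4 ^ (c √(2 c))`; among the
   configurations with coordinates in a finite subset `S` of `L` at most `2 c √(2 c) |S| ^ (2 n - 1)`
   have `Φ(Y) = 0`; in particular there are such points with coordinates in `{0, 1, …, 2 c √(2 c)}`.
3. Explicit points with integral coordinates: `Φ(Y) ≠ 0` for `Y i = (T ^ E ^ (2 i) : T ^ E ^ (2 i + 1) : 1)`
   for all integers `E > 2 c √(2 c)` and `T > (c!) ^ 2 * 4 ^ (c √(2 c))`.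
4. `Φ(Y) ≠ 0` for the points `Y i = (exp (2 ^ (2 i / 2 n)) : exp (2 ^ ((2 i + 1) / 2 n)) : 1)` with real
   coordinates, which do not depend on `m`: at these points the dimension is the expected one for ALL
   `m` at once.
-/

namespace Pool.Agent.Results.MP_d03834_ag.EffectiveEveryField

open MvPolynomial

section defs
variable {L : Type} [Field L]

/-- The space `I_d` of the forms of degree `d` which vanish to order at least `m` at the points
`(Y i 0 : Y i 1 : 1)`. -/
noncomputable def curves {n : ℕ} (Y : Fin n → Fin 2 → L) (m d : ℕ) :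
    Submodule L (MvPolynomial (Fin 3) L) :=
  homogeneousSubmodule (Fin 3) L d ⊓ Submodule.restrictScalars L
    (⨅ i : Fin n, Ideal.span
      ({X 0 - C (Y i 0) * X 2, X 1 - C (Y i 1) * X 2} : Set (MvPolynomial (Fin 3) L)) ^ m)

/-- The space `I_d` has the expected dimension. -/
def Expected {n : ℕ} (Y : Fin n → Fin 2 → L) (m d : ℕ) : Prop :=
  Module.finrank L ↥(curves Y m d) = (d + 2).choose 2 - n * (m + 1).choose 2

/-- The value at `Y` of a polynomial with integral coefficients in the coordinates of `r` points. -/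
noncomputable def value {r : ℕ} (Φ : MvPolynomial (Fin r × Fin 2) ℤ) (Y : Fin r → Fin 2 → L) : L :=
  eval (fun ij : Fin r × Fin 2 => Y ij.1 ij.2) (Φ.map (Int.castRingHom L))

end defs

/-- The sum of the absolute values of the coefficients. -/
noncomputable def height {r : ℕ} (Φ : MvPolynomial (Fin r × Fin 2) ℤ) : ℕ :=
  ∑ s ∈ Φ.support, (Φ.coeff s).natAbs

/-- The number `c = r m (m + 1) / 2` of the conditions. -/
def conds (r m : ℕ) : ℕ := r * (m + 1).choose 2

/-- The bound for the degree. -/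
def degreeBound (r m : ℕ) : ℕ := 2 * conds r m * Nat.sqrt (2 * conds r m)

/-- The bound for the height. -/
def heightBound (r m : ℕ) : ℕ :=
  (conds r m).factorial ^ 2 * 4 ^ (conds r m * Nat.sqrt (2 * conds r m))

/-- The degrees `d` which may be left open: none if `r ≥ 37`, `r = 13`, `r = 21` or `r` is a square; for
the other `r` the number `2 d + 3` is in a window around `√r (2 m + 1)`, and for `r = 11` and `r = 15`
moreover `d` is divisible by three, `√r m ≤ d` and `2 d + 3 < √r (2 m + 1)`. -/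
def Open (r m d : ℕ) : Prop :=
  ¬ (37 ≤ r ∨ r = 13 ∨ r = 21 ∨ IsSquare r) ∧
  √(r : ℝ) * (2 * m + 1) - min (√(r : ℝ) - 3) (2 / 3 + 9 / (4 * √(r : ℝ))) ≤ 2 * (d : ℝ) + 3 ∧
  2 * (d : ℝ) + 3 ≤ √(r : ℝ) * (2 * m + 1) + min (√(r : ℝ) - 3) (2 / 3 + 1 / (4 * √(r : ℝ))) ∧
  (r = 11 ∨ r = 15 → 3 ∣ d ∧ √(r : ℝ) * m ≤ d ∧ 2 * (d : ℝ) + 3 < √(r : ℝ) * (2 * m + 1))

/-- The `r` points with the affine coordinates `exp (2 ^ (k / (2 r)))`, `k = 0, 1, …, 2 r - 1`. -/
noncomputable def realPoints (r : ℕ) : Fin r → Fin 2 → ℝ := fun i j =>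
  Real.exp ((2 : ℝ) ^ (((2 * (i : ℕ) + (j : ℕ) : ℕ) : ℝ) / (2 * r)))

/-- the expected dimension over `ℂ` -/
theorem generic {r m : ℕ} (hr : 10 ≤ r) (hm : 1 ≤ m) :
    ∃ F : MvPolynomial (Fin r × Fin 2) ℚ, F ≠ 0 ∧ ∀ P : Fin r → Fin 2 → ℂ,
      MvPolynomial.aeval (fun ij : Fin r × Fin 2 => P ij.1 ij.2) F ≠ 0 →
      ∀ d : ℕ, ¬ (d = TH641.NW.dcrit r m ∧ Open r m d) → H932R3.ExpDim ℂ (fun _ => m) P d := by
  by_cases hC : 37 ≤ r ∨ r = 13 ∨ r = 21 ∨ IsSquare r
  · have h : ∃ F : MvPolynomial (Fin r × Fin 2) ℚ, F ≠ 0 ∧ ∀ P : Fin r → Fin 2 → ℂ,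
        MvPolynomial.aeval (fun ij : Fin r × Fin 2 => P ij.1 ij.2) F ≠ 0 →
        ∀ d : ℕ, H932R3.ExpDim ℂ (fun _ => m) P d := by
      rcases hC with hr | rfl | rfl | ⟨s, rfl⟩
      · exact TH760.EN.expDim37 (L := ℂ) hr hm
      · obtain ⟨F, hF, hF'⟩ := TH864.SX.uniform13 m
        exact ⟨F, hF, fun P hP d => hF' P hP d⟩
      · obtain ⟨F, hF, hF'⟩ := TH469.SX.twentyone m
        exact ⟨F, hF, fun P hP d => hF' P hP d⟩
      · have hs2 : 2 ≤ s := by
          by_contra hcon
          have : s ≤ 1 := by omega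
          have := Nat.mul_le_mul this this
          omega
        exact H932R3.near_points (L := ℂ) (w := fun _ => m) hr hm (fun _ => Or.inl rfl)
          (H932R3.near_cond (by omega) (fun _ => Or.inl rfl)
            (Or.inr ⟨s, 0, hs2, by ring, Or.inl rfl⟩))
    obtain ⟨F, hF, hF'⟩ := h
    exact ⟨F, hF, fun P hP d _ => hF' P hP d⟩
  · obtain ⟨F1, hF1, hF1'⟩ := TH641.NW.expDim_all_but_one (L := ℂ) hr hm
    obtain ⟨F2, hF2, hF2'⟩ := TH641.NW.expDim_uni_win2 (L := ℂ) hr hm
    have h3 : ∃ F : MvPolynomial (Fin r × Fin 2) ℚ, F ≠ 0 ∧ ∀ P : Fin r → Fin 2 → ℂ,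
        MvPolynomial.aeval (fun ij : Fin r × Fin 2 => P ij.1 ij.2) F ≠ 0 →
        ∀ d : ℕ, ¬ (r = 11 ∨ r = 15 → 3 ∣ d ∧ √(r : ℝ) * m ≤ d ∧
          2 * (d : ℝ) + 3 < √(r : ℝ) * (2 * m + 1)) → H932R3.ExpDim ℂ (fun _ => m) P d := by
      by_cases h11 : r = 11
      · subst h11
        obtain ⟨F, hF, hF'⟩ := TH864.SX.uniform11 m
        refine ⟨F, hF, fun P hP d hd => hF' P hP d ?_⟩
        push Not at hd
        obtain ⟨-, hd⟩ := hd
        by_cases hd3 : 3 ∣ d
        · right
          rcases lt_or_ge (d : ℝ) (√(11 : ℝ) * m) with h | h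
          · exact Or.inl h
          · exact Or.inr (by have := hd hd3 (by push_cast; exact h); push_cast at this; exact this)
        · exact Or.inl hd3
      · by_cases h15 : r = 15
        · subst h15
          obtain ⟨F, hF, hF'⟩ := TH469.SX.fifteen m
          refine ⟨F, hF, fun P hP d hd => hF' P hP d ?_⟩
          push Not at hd
          obtain ⟨-, hd⟩ := hd
          by_cases hd3 : 3 ∣ d
          · right
            rcases lt_or_ge (d : ℝ) (√(15 : ℝ) * m) with h | h
            · exact Or.inl h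
            · exact Or.inr (by have := hd hd3 (by push_cast; exact h); push_cast at this; exact this)
          · exact Or.inl hd3
        · refine ⟨1, one_ne_zero, fun P _ d hd => ?_⟩
          exact absurd (fun h => by rcases h with h | h <;> contradiction) hd
    obtain ⟨F3, hF3, hF3'⟩ := h3
    refine ⟨F1 * F2 * F3, mul_ne_zero (mul_ne_zero hF1 hF2) hF3, fun P hP d hd => ?_⟩
    rw [map_mul, map_mul] at hP
    have hP12 := left_ne_zero_of_mul hP
    by_cases hd0 : d = TH641.NW.dcrit r m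
    · have hO : ¬ Open r m d := fun h => hd ⟨hd0, h⟩
      unfold Open at hO
      by_cases hw : √(r : ℝ) * (2 * m + 1) - min (√(r : ℝ) - 3) (2 / 3 + 9 / (4 * √(r : ℝ))) ≤
          2 * (d : ℝ) + 3
      · by_cases hw2 : 2 * (d : ℝ) + 3 ≤ √(r : ℝ) * (2 * m + 1) +
            min (√(r : ℝ) - 3) (2 / 3 + 1 / (4 * √(r : ℝ)))
        · refine hF3' P (right_ne_zero_of_mul hP) d fun h => ?_
          exact hO ⟨hC, hw, hw2, h⟩
        · refine hF2' P (right_ne_zero_of_mul hP12) d (Or.inr ?_)
          push Not at hw2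
          linarith
      · refine hF2' P (right_ne_zero_of_mul hP12) d (Or.inl ?_)
        push Not at hw
        linarith
    · exact hF1' P (left_ne_zero_of_mul hP12) d hd0

theorem expected_of {L : Type} [Field L] {r m d : ℕ} {Y : Fin r → Fin 2 → L}
    (h : Y210.EF.ED L (fun _ => m) Y d) : Expected Y m d := by
  unfold Y210.EF.ED at h
  rw [Finset.sum_const, Finset.card_univ, Fintype.card_fin, smul_eq_mul] at h
  exact h

theorem value_eq {L : Type} [Field L] {r : ℕ} (Φ : MvPolynomial (Fin r × Fin 2) ℤ)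
    (Y : Fin r → Fin 2 → L) : value Φ Y = Y210.EF.ev Y Φ := by
  unfold value Y210.EF.ev
  rw [eval_map, coe_eval₂Hom]

/-- **Main result.** -/
theorem result (n m : ℕ) (hn : 10 ≤ n) (hm : 1 ≤ m) :
    ∃ A : Set ℕ, A.Subsingleton ∧ (∀ d ∈ A, Open n m d) ∧
      ∃ Φ : MvPolynomial (Fin n × Fin 2) ℤ, Φ ≠ 0 ∧ Φ.totalDegree ≤ degreeBound n m ∧
        height Φ ≤ heightBound n m ∧
        -- every field
        (∀ (L : Type) [Field L] (Y : Fin n → Fin 2 → L), value Φ Y ≠ 0 →
          ∀ d : ℕ, d ∉ A → Expected Y m d) ∧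
        -- characteristic zero or large
        (∀ (L : Type) [Field L], (CharZero L ∨ ∃ p : ℕ, CharP L p ∧ heightBound n m < p) →
          Φ.map (Int.castRingHom L) ≠ 0 ∧
          ∀ S : Finset L, Set.ncard {Y : Fin n × Fin 2 → L | (∀ ij, Y ij ∈ S) ∧
            value Φ (fun i j => Y (i, j)) = 0} * S.card ≤ degreeBound n m * S.card ^ (2 * n)) ∧
        -- points with small integral coordinates
        (∃ Y : Fin n → Fin 2 → ℕ, (∀ i j, Y i j ≤ degreeBound n m) ∧
          ∀ (L : Type) [Field L] [CharZero L], value Φ (fun i j => (Y i j : L)) ≠ 0) ∧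
        -- explicit points
        (∀ E T : ℕ, degreeBound n m < E → heightBound n m < T → ∀ (L : Type) [Field L] [CharZero L],
          value Φ (fun (i : Fin n) (j : Fin 2) => (T : L) ^ E ^ (2 * (i : ℕ) + (j : ℕ))) ≠ 0) ∧
        value Φ (realPoints n) ≠ 0 := by
  classical
  obtain ⟨A, hA⟩ : ∃ A : Set ℕ, A = {d | d = TH641.NW.dcrit n m ∧ Open n m d} := ⟨_, rfl⟩
  have hsub : A.Subsingleton := by
    intro x hx y hy
    rw [hA] at hx hy
    exact hx.1.trans hy.1.symm
  obtain ⟨F, hF, hF'⟩ := generic hn hm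
  have hF'' : ∀ P : Fin n → Fin 2 → ℂ,
      MvPolynomial.aeval (fun ij : Fin n × Fin 2 => P ij.1 ij.2) F ≠ 0 →
      ∀ d : ℕ, d ∉ A → H932R3.ExpDim ℂ (fun _ => m) P d := by
    intro P hP d hd
    refine hF' P hP d fun h => hd ?_
    rw [hA]
    exact h
  obtain ⟨P, hP⟩ : ∃ P : Fin n → Fin 2 → ℂ,
      MvPolynomial.aeval (fun ij : Fin n × Fin 2 => P ij.1 ij.2) F ≠ 0 := by
    by_contra hcon
    push Not at hcon
    apply H932R3.map_ne_zero_of (L := ℂ) hF
    apply MvPolynomial.funext
    intro x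
    rw [map_zero, eval_map]
    exact hcon fun i j => x (i, j)
  have hcnd : Y210.EF.cnd (fun _ : Fin n => m) = conds n m := by
    unfold Y210.EF.cnd conds
    rw [Finset.sum_const, Finset.card_univ, Fintype.card_fin, smul_eq_mul]
  have hc3 : 3 ≤ Y210.EF.cnd (fun _ : Fin n => m) := by
    rw [hcnd]
    unfold conds
    have h1 : 1 ≤ (m + 1).choose 2 := Nat.choose_pos (by omega)
    calc 3 ≤ 10 * 1 := by norm_num
      _ ≤ n * (m + 1).choose 2 := Nat.mul_le_mul hn h1
  obtain ⟨Φ, h1, h2, h3, h4⟩ := Y210.EF.spread_all (w := fun _ : Fin n => m) hc3 A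
    (by
      rcases hsub.eq_empty_or_singleton with h | ⟨x, h⟩
      · exact Or.inl h
      · exact Or.inr ⟨x, h⟩) (fun d hd => hF'' P hP d hd)
  rw [hcnd] at h2 h3
  have hcount : ∀ (L : Type) [Field L], (CharZero L ∨ ∃ p : ℕ, CharP L p ∧ heightBound n m < p) →
      Φ.map (Int.castRingHom L) ≠ 0 ∧
      ∀ S : Finset L, Set.ncard {Y : Fin n × Fin 2 → L | (∀ ij, Y ij ∈ S) ∧
        value Φ (fun i j => Y (i, j)) = 0} * S.card ≤ degreeBound n m * S.card ^ (2 * n) := by
    intro L _ hL
    have h5 := Y210.EF.map_ne_zero_of_lt h1 h3 hL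
    refine ⟨h5, fun S => ?_⟩
    have h6 := Y210.EF.count_zeros h5 ((Finset.sup_mono (support_map_subset _ _)).trans h2) S
    refine le_trans (le_of_eq ?_) h6
    congr 1
    rw [← Set.ncard_coe_finset]
    congr 1
    ext Y
    simp only [Set.mem_ofPred_eq, Finset.coe_filter, Fintype.mem_piFinset, value]
  -- evaluation at integral points
  have hint : ∀ (x : Fin n × Fin 2 → ℤ) (L : Type) [Field L],
      value Φ (fun (i : Fin n) (j : Fin 2) => ((x (i, j) : ℤ) : L)) = ((eval x Φ : ℤ) : L) := by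
    intro x L _
    unfold value
    rw [eval_map]
    have h7 := MvPolynomial.eval₂_comp_left (Int.castRingHom L) (RingHom.id ℤ) x Φ
    rw [RingHom.comp_id] at h7
    show _ = (Int.castRingHom L) (eval₂ (RingHom.id ℤ) _ Φ)
    rw [h7]
    congr 1
  refine ⟨A, hsub, fun d hd => by rw [hA] at hd; exact hd.2, Φ, h1, h2, h3, ?_, hcount, ?_, ?_, ?_⟩
  · intro L _ Y hY d hd
    rw [value_eq] at hY
    exact expected_of (h4 L Y hY d hd)
  · -- small integral points
    obtain ⟨-, h5⟩ := hcount ℚ (Or.inl inferInstance)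
    obtain ⟨B, hB⟩ : ∃ B, B = degreeBound n m := ⟨_, rfl⟩
    obtain ⟨S, hS⟩ : ∃ S : Finset ℚ, S = (Finset.range (B + 1)).image (fun k : ℕ => (k : ℚ)) :=
      ⟨_, rfl⟩
    have hScard : S.card = B + 1 := by
      rw [hS, Finset.card_image_of_injective _ Nat.cast_injective, Finset.card_range]
    have h6 := h5 S
    rw [hScard, ← hB] at h6
    by_contra hcon
    push Not at hcon
    have h7 : {Y : Fin n × Fin 2 → ℚ | (∀ ij, Y ij ∈ S) ∧ value Φ (fun i j => Y (i, j)) = 0} =
        ((Fintype.piFinset fun _ : Fin n × Fin 2 => S : Finset (Fin n × Fin 2 → ℚ)) :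
          Set (Fin n × Fin 2 → ℚ)) := by
      ext Y
      simp only [Set.mem_ofPred_eq, Finset.mem_coe, Fintype.mem_piFinset]
      refine ⟨fun h => h.1, fun h => ⟨h, ?_⟩⟩
      have h8 : ∀ ij, ∃ k : ℕ, k ≤ B ∧ (k : ℚ) = Y ij := by
        intro ij
        have h9 := h ij
        rw [hS, Finset.mem_image] at h9
        obtain ⟨k, hk, hk'⟩ := h9
        exact ⟨k, by rw [Finset.mem_range] at hk; omega, hk'⟩
      choose y hy hy' using h8
      obtain ⟨L, _, _, h10⟩ := hcon (fun i j => y (i, j)) (fun i j => by rw [← hB]; exact hy _)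
      have h11 := hint (fun ij => (y ij : ℤ)) L
      have h12 := hint (fun ij => (y ij : ℤ)) ℚ
      push_cast at h11 h12
      rw [h11] at h10
      have h13 : eval (fun ij => (y ij : ℤ)) Φ = 0 := by exact_mod_cast h10
      rw [h13] at h12
      have h14 : (fun (i : Fin n) (j : Fin 2) => ((y (i, j) : ℕ) : ℚ)) = fun i j => Y (i, j) := by
        funext i j
        exact hy' (i, j)
      rw [h14] at h12
      rw [h12]
      simp
    rw [h7, Set.ncard_coe_finset, Fintype.card_piFinset, Finset.prod_const, Finset.card_univ, hScard,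
      Fintype.card_prod, Fintype.card_fin, Fintype.card_fin, mul_comm n 2] at h6
    have h8 : 0 < (B + 1) ^ (2 * n) := by positivity
    have h9 : (B + 1) ^ (2 * n) * (B + 1) = B * (B + 1) ^ (2 * n) + (B + 1) ^ (2 * n) := by ring
    omega
  · intro E T hE hT L _ _
    have h5 := Y210.EF.kron_points h1 (h2.trans_lt hE) (h3.trans_lt hT)
    intro h0
    apply h5
    have h6 := hint (fun ij : Fin n × Fin 2 => (T : ℤ) ^ (E ^ (Y210.EF.idx ij))) L
    have h7 : (fun (i : Fin n) (j : Fin 2) =>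
        ((((T : ℤ) ^ (E ^ (Y210.EF.idx (i, j))) : ℤ)) : L)) =
        fun (i : Fin n) (j : Fin 2) => (T : L) ^ E ^ (2 * (i : ℕ) + (j : ℕ)) := by
      funext i j
      simp [Y210.EF.idx]
    rw [h7, h0] at h6
    exact_mod_cast h6.symm
  · intro h0
    apply Y210.EF.exp_points (by omega : 1 ≤ n) h1
    have h6 := congrArg (fun x : ℝ => (x : ℂ)) h0
    simp only [Complex.ofReal_zero] at h6
    rw [← h6]
    unfold value realPoints
    rw [eval_map]
    have h7 := MvPolynomial.eval₂_comp_left Complex.ofRealHom (Int.castRingHom ℝ)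
      (fun ij : Fin n × Fin 2 => Real.exp ((2 : ℝ) ^ (((2 * (ij.1 : ℕ) + (ij.2 : ℕ) : ℕ) : ℝ) /
        (2 * n)))) Φ
    show _ = Complex.ofRealHom _
    rw [h7]
    have h8 : Complex.ofRealHom.comp (Int.castRingHom ℝ) = Int.castRingHom ℂ :=
      RingHom.ext_int _ _
    rw [h8]
    congr 1
    funext ij
    show _ = ((Real.exp _ : ℝ) : ℂ)
    rw [Complex.ofReal_exp]
    rfl

end Pool.Agent.Results.MP_d03834_ag.EffectiveEveryField
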